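import Mathlib

/-!
# MP_3b0c1c_an: generic nowhere differentiability along all `C¹` curves
-/

namespace Pool.Agent.Results.MP_3b0c1c_an.Generic

open Set Metric

/-- `c` restricted to the interval `I` is a unit speed `C¹` curve in `U`. -/
structure IsUnitSpeedCurve {d : ℕ} (U : Set (EuclideanSpace ℝ (Fin d))) (I : Set ℝ)
    (c : ℝ → EuclideanSpace ℝ (Fin d)) : Prop where
  interval : I.OrdConnected
  nontrivial : I.Nontrivial
  mapsTo : ∀ t ∈ I, c t ∈ U
  contDiff : ContDiffOn ℝ 1 c I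
  unitSpeed : ∀ t ∈ I, ‖derivWithin c I t‖ = 1

/-- The set `𝒩(U)` of all `f ∈ C(closure U)` whose restriction to every unit speed `C¹` curve
in `U` is nowhere differentiable. -/
def NowhereDiffAlongCurves {d : ℕ} (U : Set (EuclideanSpace ℝ (Fin d))) :
    Set C(closure U, ℝ) :=
  {f | ∀ (I : Set ℝ) (c : ℝ → EuclideanSpace ℝ (Fin d)) (hc : IsUnitSpeedCurve U I c)
      (φ : ℝ → ℝ), (∀ t (ht : t ∈ I), φ t = f ⟨c t, subset_closure (hc.mapsTo t ht)⟩) →
      ∀ t ∈ I, ¬ DifferentiableWithinAt ℝ φ I t}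

variable {d : ℕ} {U : Set (EuclideanSpace ℝ (Fin d))}

/-- fast oscillation in the coordinate `i` -/
noncomputable def wave (U : Set (EuclideanSpace ℝ (Fin d))) (i : Fin d) (A r : ℝ) :
    C(closure U, ℝ) where
  toFun x := A * Real.cos ((x : EuclideanSpace ℝ (Fin d)) i / r)
  continuous_toFun := by fun_prop

/-- the open dense sets -/
def O (U : Set (EuclideanSpace ℝ (Fin d))) [CompactSpace (closure U)] (i : Fin d) (m : ℕ) :
    Set C(closure U, ℝ) :=
  {f | ∃ (g : C(closure U, ℝ)) (A r : ℝ), 0 < A ∧ 0 < r ∧ ((m:ℝ) + 1) * ((m + 1) * r) ≤ 1 ∧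
    ((m:ℝ) + 1) * ((m + 1) * r) ≤ A / 2 ∧
    (∀ x y, dist x y ≤ (m + 1) * r → |g x - g y| ≤ A / 4) ∧
    dist f (g + wave U i A r) < A / 8}

lemma O_open [CompactSpace (closure U)] (i : Fin d) (m : ℕ) : IsOpen (O U i m) := by
  have : O U i m = ⋃ (g : C(closure U, ℝ)) (A : ℝ) (r : ℝ) (_ : 0 < A ∧ 0 < r ∧
      ((m:ℝ) + 1) * ((m + 1) * r) ≤ 1 ∧ ((m:ℝ) + 1) * ((m + 1) * r) ≤ A / 2 ∧
      (∀ x y, dist x y ≤ (m + 1) * r → |g x - g y| ≤ A / 4)),
      ball (g + wave U i A r) (A / 8) := by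
    ext f
    simp only [O, mem_ofPred_eq, mem_iUnion, mem_ball, exists_prop]
    constructor
    · rintro ⟨g, A, r, h1, h2, h3, h4, h5, h6⟩
      exact ⟨g, A, r, ⟨h1, h2, h3, h4, h5⟩, h6⟩
    · rintro ⟨g, A, r, ⟨h1, h2, h3, h4, h5⟩, h6⟩
      exact ⟨g, A, r, h1, h2, h3, h4, h5, h6⟩
  rw [this]
  exact isOpen_iUnion fun g => isOpen_iUnion fun A => isOpen_iUnion fun r =>
    isOpen_iUnion fun _ => isOpen_ball

lemma O_dense [CompactSpace (closure U)] (i : Fin d) (m : ℕ) : Dense (O U i m) := by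
  rw [Metric.dense_iff]
  intro g ε hε
  set A := ε / 2 with hA
  have hA0 : 0 < A := by positivity
  have huc : UniformContinuous g := CompactSpace.uniformContinuous_of_continuous g.continuous
  rw [Metric.uniformContinuous_iff] at huc
  obtain ⟨η, hη, hη'⟩ := huc (A / 4) (by positivity)
  set M : ℝ := (m : ℝ) + 1 with hM
  have hM0 : 0 < M := by positivity
  have hM1 : 1 ≤ M := by rw [hM]; linarith [(Nat.cast_nonneg m : (0:ℝ) ≤ m)]
  set K : ℝ := min (min (η / 2) 1) (A / 2) with hK
  have hK0 : 0 < K := by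
    rw [hK]
    apply lt_min (lt_min (by positivity) one_pos) (by positivity)
  set r : ℝ := K / (M * M) with hr
  have hr0 : 0 < r := by positivity
  have hMMr : M * (M * r) = K := by
    rw [hr]; field_simp
  have hMr : M * r ≤ K := by
    have : M * r ≤ M * (M * r) := by
      have h0 : 0 ≤ M * r := by positivity
      nlinarith
    linarith
  refine ⟨g + wave U i A r, ?_, g, A, r, hA0, hr0, ?_, ?_, ?_, ?_⟩
  · rw [mem_ball]
    have : dist (g + wave U i A r) g ≤ A := by
      rw [ContinuousMap.dist_le hA0.le]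
      intro x
      rw [Real.dist_eq]
      simp only [ContinuousMap.add_apply, add_sub_cancel_left, wave, ContinuousMap.coe_mk]
      rw [abs_mul, abs_of_pos hA0]
      have := Real.abs_cos_le_one ((x : EuclideanSpace ℝ (Fin d)) i / r)
      nlinarith
    linarith
  · rw [← hM, hMMr]
    exact (min_le_left _ _).trans (min_le_right _ _)
  · rw [← hM, hMMr]
    exact min_le_right _ _
  · intro x y hxy
    have h1 : dist x y < η := by
      have h2 : K ≤ η / 2 := (min_le_left _ _).trans (min_le_left _ _)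
      rw [← hM] at hxy
      linarith
    have := hη' h1
    rw [Real.dist_eq] at this
    exact this.le
  · rw [dist_self]; positivity

lemma value_bound [CompactSpace (closure U)] (i : Fin d) (f g : C(closure U, ℝ)) (A r : ℝ)
    (hA : 0 < A) (h4 : dist f (g + wave U i A r) < A / 8) (x y : closure U)
    (e1 : |g x - g y| ≤ A / 4)
    (e5 : 1 ≤ |Real.cos ((x : EuclideanSpace ℝ (Fin d)) i / r)
      - Real.cos ((y : EuclideanSpace ℝ (Fin d)) i / r)|) :
    A / 2 ≤ |f x - f y| := by
  have e2 : |f x - (g x + A * Real.cos ((x : EuclideanSpace ℝ (Fin d)) i / r))| < A / 8 := by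
    have := (ContinuousMap.dist_apply_le_dist (f := f) (g := g + wave U i A r) x).trans_lt h4
    rw [Real.dist_eq] at this
    exact this
  have e3 : |f y - (g y + A * Real.cos ((y : EuclideanSpace ℝ (Fin d)) i / r))| < A / 8 := by
    have := (ContinuousMap.dist_apply_le_dist (f := f) (g := g + wave U i A r) y).trans_lt h4
    rw [Real.dist_eq] at this
    exact this
  have e6 : A ≤ |A * Real.cos ((x : EuclideanSpace ℝ (Fin d)) i / r)
      - A * Real.cos ((y : EuclideanSpace ℝ (Fin d)) i / r)| := by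
    rw [← mul_sub, abs_mul, abs_of_pos hA]
    nlinarith
  rw [abs_lt] at e2 e3
  rw [abs_le] at e1
  rcases le_abs.mp e6 with h | h
  · refine le_abs.mpr (Or.inl ?_)
    linarith
  · refine le_abs.mpr (Or.inr ?_)
    linarith

/-- some quarter turn changes the cosine by at least one -/
lemma cos_change (u s : ℝ) (hs : s = 1 ∨ s = -1) :
    ∃ q : ℝ, 0 < q ∧ q ≤ 2 * Real.pi ∧ 1 ≤ |Real.cos (u + s * q) - Real.cos u| := by
  have hp := Real.pi_pos
  have key : 1 ≤ |Real.cos u + Real.sin u| ∨ 1 ≤ |Real.sin u - Real.cos u| := by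
    by_contra h
    push Not at h
    have h1 : (Real.cos u + Real.sin u) ^ 2 < 1 := by
      have := sq_abs (Real.cos u + Real.sin u)
      nlinarith [abs_nonneg (Real.cos u + Real.sin u), h.1]
    have h2 : (Real.sin u - Real.cos u) ^ 2 < 1 := by
      have := sq_abs (Real.sin u - Real.cos u)
      nlinarith [abs_nonneg (Real.sin u - Real.cos u), h.2]
    nlinarith [Real.sin_sq_add_cos_sq u]
  have c1 : Real.cos (u + Real.pi / 2) = - Real.sin u := Real.cos_add_pi_div_two u
  have c2 : Real.cos (u + 3 * Real.pi / 2) = Real.sin u := by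
    have : u + 3 * Real.pi / 2 = (u + Real.pi) + Real.pi / 2 := by ring
    rw [this, Real.cos_add_pi_div_two, Real.sin_add_pi, neg_neg]
  have c3 : Real.cos (u - Real.pi / 2) = Real.sin u := Real.cos_sub_pi_div_two u
  have c4 : Real.cos (u - 3 * Real.pi / 2) = - Real.sin u := by
    have : u - 3 * Real.pi / 2 = (u - Real.pi) - Real.pi / 2 := by ring
    rw [this, Real.cos_sub_pi_div_two, Real.sin_sub_pi]
  have n1 : |-Real.sin u - Real.cos u| = |Real.cos u + Real.sin u| := by
    rw [← abs_neg]; congr 1; ring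
  rcases hs with rfl | rfl
  · rcases key with h | h
    · refine ⟨Real.pi / 2, by positivity, by linarith, ?_⟩
      rw [one_mul, c1, n1]; exact h
    · refine ⟨3 * Real.pi / 2, by positivity, by linarith, ?_⟩
      rw [one_mul, c2]; exact h
  · rcases key with h | h
    · refine ⟨3 * Real.pi / 2, by positivity, by linarith, ?_⟩
      rw [show u + -1 * (3 * Real.pi / 2) = u - 3 * Real.pi / 2 by ring, c4, n1]; exact h
    · refine ⟨Real.pi / 2, by positivity, by linarith, ?_⟩
      rw [show u + -1 * (Real.pi / 2) = u - Real.pi / 2 by ring, c3]; exact h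

/-- **MP_3b0c1c_an, Q1.** For every dimension `d` and every bounded open `U ⊂ ℝ^d`, the set of
`f ∈ C(closure U)` whose restriction to every unit speed `C¹` curve in `U` is nowhere
differentiable contains a dense `G_δ` subset of `C(closure U)`. -/
theorem result (d : ℕ) (U : Set (EuclideanSpace ℝ (Fin d))) (hU : IsOpen U)
    (hb : Bornology.IsBounded U) :
    ∃ G : Set C(closure U, ℝ), IsGδ G ∧ Dense G ∧ G ⊆ NowhereDiffAlongCurves U := by
  have : CompactSpace (closure U) := isCompact_iff_compactSpace.mp hb.isCompact_closure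
  refine ⟨⋂ p : Fin d × ℕ, O U p.1 p.2, IsGδ.iInter_of_isOpen fun p => O_open _ _,
    dense_iInter_of_isOpen (fun p => O_open _ _) (fun p => O_dense _ _), ?_⟩
  intro f hf I c hc φ hφ t₀ ht₀ hdiff
  have hf' : ∀ i m, f ∈ O U i m := fun i m => mem_iInter.mp hf (i, m)
  -- derivative of the curve
  have hcd : DifferentiableOn ℝ c I := hc.contDiff.differentiableOn (by norm_num)
  have hconv : Convex ℝ I := hc.interval.convex
  have hlip : ∀ t ∈ I, ‖c t - c t₀‖ ≤ |t - t₀| := by
    intro t ht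
    have := hconv.norm_image_sub_le_of_norm_derivWithin_le hcd
      (fun x hx => (hc.unitSpeed x hx).le) ht₀ ht
    simpa using this
  set v := derivWithin c I t₀ with hv
  have hv0 : v ≠ 0 := by
    intro h
    have := hc.unitSpeed t₀ ht₀
    rw [← hv, h, norm_zero] at this
    exact zero_ne_one this
  obtain ⟨i, hi⟩ : ∃ i, v i ≠ 0 := by
    by_contra h
    push Not at h
    exact hv0 (by ext i; simpa using h i)
  have hvi : 0 < |v i| := abs_pos.mpr hi
  -- coordinate function
  have hci : HasDerivWithinAt (fun t => c t i) (v i) I t₀ := by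
    have h1 : HasDerivWithinAt c v I t₀ := (hcd t₀ ht₀).hasDerivWithinAt
    exact (EuclideanSpace.proj (𝕜 := ℝ) i).hasFDerivAt.comp_hasDerivWithinAt t₀ h1
  have hcont : ContinuousOn (fun t => c t i) I := by
    have h1 : ContinuousOn c I := hcd.continuousOn
    intro t ht
    have h2 := (h1 t ht)
    exact ((EuclideanSpace.proj (𝕜 := ℝ) i).continuous.continuousAt).comp_continuousWithinAt h2
  obtain ⟨η₁, hη₁, hη₁'⟩ : ∃ η > 0, ∀ t ∈ I, |t - t₀| < η →
      |c t i - c t₀ i - (t - t₀) * v i| ≤ |v i| / 2 * |t - t₀| := by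
    have h1 := hasDerivWithinAt_iff_isLittleO.mp hci
    have h2 := h1.def (c := |v i| / 2) (by positivity)
    rw [eventually_nhdsWithin_iff, Metric.eventually_nhds_iff] at h2
    obtain ⟨η, hη, h3⟩ := h2
    refine ⟨η, hη, fun t ht htη => ?_⟩
    have := h3 (y := t) (by rwa [Real.dist_eq]) ht
    simpa using this
  -- derivative of `φ`
  obtain ⟨Lc, hLc⟩ : ∃ L, L = derivWithin φ I t₀ := ⟨_, rfl⟩
  obtain ⟨η₂, hη₂, hη₂'⟩ : ∃ η > 0, ∀ t ∈ I, |t - t₀| < η →
      |φ t - φ t₀| ≤ (|Lc| + 1) * |t - t₀| := by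
    have h0 : HasDerivWithinAt φ Lc I t₀ := by rw [hLc]; exact hdiff.hasDerivWithinAt
    have h1 := hasDerivWithinAt_iff_isLittleO.mp h0
    have h2 := h1.def (c := 1) one_pos
    rw [eventually_nhdsWithin_iff, Metric.eventually_nhds_iff] at h2
    obtain ⟨η, hη, h3⟩ := h2
    refine ⟨η, hη, fun t ht htη => ?_⟩
    have h4 := h3 (y := t) (by rwa [Real.dist_eq]) ht
    simp only [smul_eq_mul, Real.norm_eq_abs, one_mul] at h4
    have h5 : |φ t - φ t₀| ≤ |φ t - φ t₀ - (t - t₀) * Lc| + |(t - t₀) * Lc| := by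
      have := abs_add_le (φ t - φ t₀ - (t - t₀) * Lc) ((t - t₀) * Lc)
      simpa using this
    rw [abs_mul] at h5
    nlinarith
  -- another point of the interval
  obtain ⟨b, hbI, hbne⟩ : ∃ b ∈ I, b ≠ t₀ := hc.nontrivial.exists_ne t₀
  have hb0 : 0 < |b - t₀| := abs_pos.mpr (sub_ne_zero.mpr hbne)
  -- choose `m`
  obtain ⟨m, hm⟩ := exists_nat_gt
    (max (max (|Lc| + 1) (4 * Real.pi / |v i|)) (max (max (1 / η₁) (1 / η₂)) (1 / |b - t₀|)))
  have hm1 : |Lc| + 1 < m := (le_max_left _ _).trans (le_max_left _ _) |>.trans_lt hm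
  have hm2 : 4 * Real.pi / |v i| < m := (le_max_right _ _).trans (le_max_left _ _) |>.trans_lt hm
  have hm3 : 1 / η₁ < m :=
    ((le_max_left _ _).trans ((le_max_left _ _).trans (le_max_right _ _))).trans_lt hm
  have hm4 : 1 / η₂ < m :=
    ((le_max_right _ _).trans ((le_max_left _ _).trans (le_max_right _ _))).trans_lt hm
  have hm5 : 1 / |b - t₀| < m :=
    ((le_max_right _ _).trans (le_max_right _ _)).trans_lt hm
  obtain ⟨g, A, r, hA, hr, h1, h2, h3, h4⟩ := hf' i m
  set M : ℝ := (m : ℝ) + 1 with hM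
  have hM0 : 0 < M := by positivity
  set w : ℝ := M * r with hw
  have hw0 : 0 < w := by positivity
  have hwM : w ≤ 1 / M := by rw [le_div_iff₀ hM0]; linarith
  have small : ∀ x : ℝ, 0 < x → 1 / x < m → w < x := by
    intro x hx hxm
    have : 1 / x < M := by rw [hM]; linarith
    have h5 : 1 / M < x := by
      rw [div_lt_iff₀ hM0]; rw [div_lt_iff₀ hx] at this; linarith
    linarith
  have hwη₁ := small η₁ hη₁ hm3
  have hwη₂ := small η₂ hη₂ hm4
  have hwb := small _ hb0 hm5
  -- direction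
  obtain ⟨s, hs, hsI⟩ : ∃ s : ℝ, (s = 1 ∨ s = -1) ∧ uIcc t₀ (t₀ + s * w) ⊆ I := by
    rcases lt_or_gt_of_ne hbne with h | h
    · refine ⟨-1, Or.inr rfl, ?_⟩
      rw [abs_of_neg (by linarith)] at hwb
      refine Subset.trans ?_ (hc.interval.out hbI ht₀)
      rw [uIcc_of_ge (by linarith)]
      exact Icc_subset_Icc (by linarith) le_rfl
    · refine ⟨1, Or.inl rfl, ?_⟩
      rw [abs_of_pos (by linarith)] at hwb
      refine Subset.trans ?_ (hc.interval.out ht₀ hbI)
      rw [uIcc_of_le (by linarith)]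
      exact Icc_subset_Icc le_rfl (by linarith)
  have hs1 : |s| = 1 := by rcases hs with h | h <;> rw [h] <;> simp
  set t₁ := t₀ + s * w with ht₁
  have ht₁I : t₁ ∈ I := hsI right_mem_uIcc
  have habs : |t₁ - t₀| = w := by
    rw [ht₁, add_sub_cancel_left, abs_mul, hs1, one_mul, abs_of_pos hw0]
  have hcoord := hη₁' t₁ ht₁I (by rw [habs]; exact hwη₁)
  rw [habs] at hcoord
  set D := c t₁ i - c t₀ i with hD
  -- the coordinate moves by at least 2 π r
  have hbig : 2 * Real.pi * r ≤ |D| := by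
    have h5 : |(t₁ - t₀) * v i| = w * |v i| := by rw [abs_mul, habs]
    have h6 : |(t₁ - t₀) * v i| ≤ |D| + |D - (t₁ - t₀) * v i| := by
      have := abs_sub_abs_le_abs_sub ((t₁ - t₀) * v i) D
      rw [abs_sub_comm ((t₁ - t₀) * v i) D] at this
      linarith
    have h7 : 4 * Real.pi ≤ |v i| * M := by
      rw [div_lt_iff₀ hvi] at hm2
      rw [hM]; nlinarith
    have h8 : 4 * Real.pi * r ≤ |v i| * M * r := mul_le_mul_of_nonneg_right h7 hr.le
    have h9 : |v i| * M * r = |v i| * w := by rw [hw]; ring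
    nlinarith
  -- the sign of `D`
  obtain ⟨s', hs', hs'D⟩ : ∃ s' : ℝ, (s' = 1 ∨ s' = -1) ∧ D = s' * |D| := by
    rcases le_total 0 D with h | h
    · exact ⟨1, Or.inl rfl, by rw [abs_of_nonneg h, one_mul]⟩
    · exact ⟨-1, Or.inr rfl, by rw [abs_of_nonpos h]; ring⟩
  obtain ⟨q, hq0, hq2, hqc⟩ := cos_change (c t₀ i / r) s' hs'
  -- intermediate value
  have hmem : c t₀ i + s' * (q * r) ∈ uIcc (c t₀ i) (c t₁ i) := by
    have h5 : q * r ≤ |D| := by nlinarith
    have h6 : c t₁ i = c t₀ i + s' * |D| := by rw [← hs'D, hD]; ring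
    rw [h6]
    have h7 : 0 ≤ q * r := by positivity
    rcases hs' with h | h
    · rw [h, uIcc_of_le (by nlinarith [abs_nonneg D])]
      constructor <;> linarith
    · rw [h, uIcc_of_ge (by nlinarith [abs_nonneg D])]
      constructor <;> linarith
  obtain ⟨t, htm, htc⟩ := intermediate_value_uIcc (hcont.mono hsI) hmem
  have htI : t ∈ I := hsI htm
  have htw : |t - t₀| ≤ w := by
    have := abs_sub_left_of_mem_uIcc htm
    rw [habs] at this
    exact this
  simp only at htc
  -- estimate of the values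
  have hval : A / 2 ≤ |φ t - φ t₀| := by
    rw [hφ t htI, hφ t₀ ht₀]
    refine value_bound i f g A r hA h4 _ _ (h3 _ _ ?_) ?_
    · exact (hlip t htI).trans htw |>.trans' (by rw [← dist_eq_norm]; exact le_rfl)
    · have e4 : c t i / r = c t₀ i / r + s' * q := by
        rw [htc]; field_simp
      show 1 ≤ |Real.cos (c t i / r) - Real.cos (c t₀ i / r)|
      rw [e4]; exact hqc
  have hup := hη₂' t htI (lt_of_le_of_lt htw hwη₂)
  have hLM : |Lc| + 1 < M := by rw [hM]; linarith
  have : (|Lc| + 1) * |t - t₀| ≤ (|Lc| + 1) * w :=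
    mul_le_mul_of_nonneg_left htw (by positivity)
  nlinarith

end Pool.Agent.Results.MP_3b0c1c_an.Generic
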